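import Mathlib
import Pool.Agent.W388.TW.D0
import Pool.Agent.H370R2.DirGood

/-! Task TW-FE (MP_77948b_nt, owner helper388): analytic consequences of the functional equation,
uniform in the conductor. Adapted from `Pool.Agent.H304R2.EC.{Growth,Left,Sym}`. -/

set_option autoImplicit false

open Complex Filter Topology Set MeasureTheory Asymptotics
open H370.DL (refl hasDerivAt_refl analyticAt_refl im_osc re_osc eventually_im_ne
  ne_neg_nat_of_im logDeriv_refl order_refl)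
open W388 (GG FE2 StFE)

namespace Pool.Agent.W820.TW

theorem norm_Gamma_le {z : ℂ} (hz : 0 < z.re) : ‖Complex.Gamma z‖ ≤ Real.Gamma z.re := by
  rw [Complex.Gamma_eq_integral hz, Real.Gamma_eq_integral hz]
  unfold Complex.GammaIntegral
  refine (norm_integral_le_integral_norm _).trans (le_of_eq ?_)
  refine setIntegral_congr_fun measurableSet_Ioi (fun t ht => ?_)
  have ht' : (0 : ℝ) < t := ht
  simp only [norm_mul]
  rw [Complex.norm_cpow_eq_rpow_re_of_pos ht', Complex.norm_real, Real.norm_eq_abs,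
    abs_of_pos (Real.exp_pos _)]
  simp

theorem norm_sin_le (z : ℂ) : ‖Complex.sin z‖ ≤ Real.exp |z.im| := by
  unfold Complex.sin
  rw [norm_div, norm_mul, Complex.norm_I, mul_one]
  have h1 : ‖Complex.exp (-z * Complex.I) - Complex.exp (z * Complex.I)‖ ≤
      Real.exp |z.im| + Real.exp |z.im| := by
    refine (norm_sub_le _ _).trans ?_
    rw [Complex.norm_exp, Complex.norm_exp]
    refine add_le_add (Real.exp_le_exp.mpr ?_) (Real.exp_le_exp.mpr ?_)
    · have : (-z * Complex.I).re = z.im := by simp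
      rw [this]; exact le_abs_self _
    · have : (z * Complex.I).re = -z.im := by simp
      rw [this]; exact neg_le_abs _
  have h2 : ‖(2 : ℂ)‖ = 2 := by norm_num
  rw [h2]
  linarith

/-- crude bound for the reciprocal of the Gamma function, base case -/
theorem inv_Gamma_base : ∃ M : ℝ, 0 ≤ M ∧ ∀ z : ℂ, -1 / 2 ≤ z.re → z.re ≤ 1 / 2 → 1 ≤ |z.im| →
    ‖(Complex.Gamma z)⁻¹‖ ≤ M * Real.exp (Real.pi * |z.im|) := by
  obtain ⟨M, hM⟩ := (isCompact_Icc (a := (1 / 2 : ℝ)) (b := 3 / 2)).exists_bound_of_continuousOn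
    (f := Real.Gamma) (fun x hx => (Real.differentiableAt_Gamma (fun m => by
      have := hx.1
      have h2 : (0 : ℝ) ≤ m := Nat.cast_nonneg m
      linarith)).continuousAt.continuousWithinAt)
  have hM0 : 0 ≤ M := (norm_nonneg _).trans (hM 1 (by constructor <;> norm_num))
  refine ⟨M, hM0, fun z h1 h2 h3 => ?_⟩
  have him : z.im ≠ 0 := by
    intro h; rw [h, abs_zero] at h3; linarith
  have hR := Complex.Gamma_mul_Gamma_one_sub z
  have hpi : (Real.pi : ℂ) ≠ 0 := by exact_mod_cast Real.pi_ne_zero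
  have hsin : Complex.sin (Real.pi * z) ≠ 0 := by
    intro h
    rw [Complex.sin_eq_zero_iff] at h
    obtain ⟨k, hk⟩ := h
    have h5 : z = k := by
      have : (Real.pi : ℂ) * z = Real.pi * k := by rw [hk]; ring
      exact mul_left_cancel₀ hpi this
    apply him
    have := congrArg Complex.im h5
    simpa using this
  have hne : Complex.Gamma z ≠ 0 := Gamma_ne_zero (ne_neg_nat_of_im him)
  have hinv : (Complex.Gamma z)⁻¹ =
      Complex.Gamma (1 - z) * Complex.sin (Real.pi * z) / Real.pi := by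
    rw [inv_eq_iff_eq_inv, inv_div, eq_div_iff]
    · have h6 : Complex.Gamma z * Complex.Gamma (1 - z) *
          Complex.sin (Real.pi * z) = Real.pi := by
        rw [hR]; field_simp
      rw [← mul_assoc]; exact h6
    · refine mul_ne_zero ?_ hsin
      exact Gamma_ne_zero (ne_neg_nat_of_im (by simpa using him))
  rw [hinv]
  have hn3 : ‖Complex.Gamma (1 - z)‖ ≤ M := by
    have hre : (1 - z).re = 1 - z.re := by simp
    refine (norm_Gamma_le (by rw [hre]; linarith)).trans ?_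
    rw [hre]
    exact (le_abs_self _).trans (hM _ ⟨by linarith, by linarith⟩)
  have hn4 : ‖Complex.sin (Real.pi * z)‖ ≤ Real.exp (Real.pi * |z.im|) := by
    refine (norm_sin_le _).trans (le_of_eq ?_)
    congr 1
    have : ((Real.pi : ℂ) * z).im = Real.pi * z.im := by simp
    rw [this, abs_mul, abs_of_pos Real.pi_pos]
  have hn5 : ‖((Real.pi : ℂ))⁻¹‖ ≤ 1 := by
    rw [norm_inv, Complex.norm_real, Real.norm_eq_abs, abs_of_pos Real.pi_pos]
    apply inv_le_one_of_one_le₀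
    linarith [Real.pi_gt_three]
  rw [div_eq_mul_inv, norm_mul, norm_mul]
  have hE : 0 ≤ Real.exp (Real.pi * |z.im|) := (Real.exp_pos _).le
  calc ‖Complex.Gamma (1 - z)‖ * ‖Complex.sin (Real.pi * z)‖ * ‖((Real.pi : ℂ))⁻¹‖
      ≤ M * Real.exp (Real.pi * |z.im|) * 1 := by gcongr
    _ = M * Real.exp (Real.pi * |z.im|) := by ring

/-- crude bound for the reciprocal of the Gamma function -/
theorem inv_Gamma_le : ∃ M : ℝ, 0 ≤ M ∧ ∀ z : ℂ, -1 / 2 ≤ z.re → 1 ≤ |z.im| →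
    ‖(Complex.Gamma z)⁻¹‖ ≤ M * Real.exp (Real.pi * |z.im|) := by
  obtain ⟨M, hM0, hM⟩ := inv_Gamma_base
  refine ⟨M, hM0, ?_⟩
  have key : ∀ n : ℕ, ∀ z : ℂ, -1 / 2 ≤ z.re → z.re ≤ 1 / 2 + n → 1 ≤ |z.im| →
      ‖(Complex.Gamma z)⁻¹‖ ≤ M * Real.exp (Real.pi * |z.im|) := by
    intro n
    induction n with
    | zero => intro z h1 h2 h3; exact hM z h1 (by simpa using h2) h3
    | succ n ih =>
      intro z h1 h2 h3
      rcases le_or_gt z.re (1 / 2) with h | h
      · exact hM z h1 h h3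
      · have him : (z - 1).im ≠ 0 := by
          intro h'
          have : z.im = 0 := by simpa using h'
          rw [this, abs_zero] at h3; linarith
        have hz1 : z - 1 ≠ 0 := by
          intro h'; rw [h'] at him; simp at him
        have hG1 : Complex.Gamma z = (z - 1) * Complex.Gamma (z - 1) := by
          have := Complex.Gamma_add_one (z - 1) hz1
          rwa [sub_add_cancel] at this
        have e1 : (z - 1).re = z.re - 1 := by simp
        have e2 : (z - 1).im = z.im := by simp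
        have h5 := ih (z - 1) (by rw [e1]; linarith) (by rw [e1]; push_cast at h2; linarith)
          (by rw [e2]; exact h3)
        rw [e2] at h5
        have hn1 : ‖(z - 1)⁻¹‖ ≤ 1 := by
          rw [norm_inv]
          apply inv_le_one_of_one_le₀
          refine h3.trans ?_
          have := Complex.abs_im_le_norm (z - 1)
          rwa [e2] at this
        rw [hG1, mul_inv, norm_mul]
        calc ‖(z - 1)⁻¹‖ * ‖(Complex.Gamma (z - 1))⁻¹‖ ≤ 1 * ‖(Complex.Gamma (z - 1))⁻¹‖ := by gcongr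
          _ ≤ _ := by rw [one_mul]; exact h5
  intro z h1 h3
  obtain ⟨n, hn⟩ := exists_nat_ge z.re
  exact key n z h1 (by linarith) h3

/-- the digamma function in vertical strips -/
theorem digamma_strip (b : ℝ) : ∃ C : ℝ, 0 ≤ C ∧ ∀ w : ℂ, -1 / 2 ≤ w.re → w.re ≤ b → 1 ≤ |w.im| →
    ‖logDeriv Gamma w - Real.log |w.im|‖ ≤ C := by
  set b' : ℝ := |b| + 1 with hb'
  have hb'0 : 0 < b' := by positivity
  have hs0 : 0 ≤ ∑' n : ℕ, 1 / ((n : ℝ) + 1) ^ 2 := tsum_nonneg fun n => by positivity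
  have hl0 : 0 ≤ Real.log (b' + 3) := Real.log_nonneg (by linarith)
  -- positive real part
  have key : ∀ s : ℂ, 0 < s.re → s.re ≤ b' → 1 ≤ |s.im| →
      ‖logDeriv Gamma s - Real.log |s.im|‖ ≤
        Real.log (b' + 3) + Real.pi + 1 + 1 + ∑' n : ℕ, 1 / ((n : ℝ) + 1) ^ 2 := by
    intro s hs h2 h3
    have hn1 : 1 ≤ ‖s‖ := h3.trans (abs_im_le_norm s)
    have hn2 : 1 ≤ ‖s + 1‖ := by
      refine le_trans ?_ (abs_im_le_norm (s + 1))
      simpa using h3
    have hn3 : |s.im| ≤ ‖s + 2‖ := by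
      refine le_trans ?_ (abs_im_le_norm (s + 2))
      simp
    have hn4 : ‖s + 2‖ ≤ (b' + 2) + |s.im| := by
      refine (norm_le_abs_re_add_abs_im (s + 2)).trans ?_
      simp only [add_re, re_ofNat, add_im, im_ofNat, add_zero]
      rw [abs_of_nonneg (by linarith)]
      linarith
    have hpos : 0 < |s.im| := by linarith
    have b1 : ‖1 / s‖ ≤ 1 := by
      rw [norm_div, norm_one, div_le_iff₀ (by linarith)]
      linarith
    have b2 : ‖1 / (s + 1)‖ ≤ 1 := by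
      rw [norm_div, norm_one, div_le_iff₀ (by linarith)]
      linarith
    have b3 : ‖log (s + 2) - Real.log |s.im|‖ ≤ Real.log (b' + 3) + Real.pi := by
      have e : log (s + 2) - Real.log |s.im| =
          ((Real.log (‖s + 2‖ / |s.im|) : ℝ) : ℂ) + (arg (s + 2) : ℂ) * I := by
        rw [Real.log_div (by linarith) hpos.ne']
        rw [log]
        push_cast
        ring
      rw [e]
      refine (norm_add_le _ _).trans (add_le_add ?_ ?_)
      · rw [Complex.norm_real, Real.norm_eq_abs, abs_of_nonneg]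
        · apply Real.log_le_log (div_pos (by linarith) hpos)
          rw [div_le_iff₀ hpos]
          nlinarith
        · apply Real.log_nonneg
          rw [le_div_iff₀ hpos]
          linarith
      · rw [norm_mul, norm_I, mul_one, Complex.norm_real, Real.norm_eq_abs]
        exact abs_arg_le_pi _
    have e : logDeriv Gamma s - Real.log |s.im| =
        (log (s + 2) - Real.log |s.im|) - 1 / s - 1 / (s + 1) + ∑' n, H370.DG.er n s := by
      rw [H370.DG.logDeriv_Gamma' hs]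
      ring
    rw [e]
    calc _ ≤ ‖(log (s + 2) - Real.log |s.im|) - 1 / s - 1 / (s + 1)‖ + ‖∑' n, H370.DG.er n s‖ :=
          norm_add_le _ _
      _ ≤ (‖(log (s + 2) - Real.log |s.im|) - 1 / s‖ + ‖1 / (s + 1)‖) +
          ‖∑' n, H370.DG.er n s‖ := by
          gcongr
          exact norm_sub_le _ _
      _ ≤ ((‖(log (s + 2) - Real.log |s.im|)‖ + ‖1 / s‖) + ‖1 / (s + 1)‖) +
          ‖∑' n, H370.DG.er n s‖ := by
          gcongr
          exact norm_sub_le _ _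
      _ ≤ ((Real.log (b' + 3) + Real.pi + 1) + 1) + ∑' n : ℕ, 1 / ((n : ℝ) + 1) ^ 2 := by
          gcongr
          exact H370.DG.norm_tsum_er hs
      _ = _ := by ring
  refine ⟨Real.log (b' + 3) + Real.pi + 1 + 1 + ∑' n : ℕ, 1 / ((n : ℝ) + 1) ^ 2 + 1, by
    have := Real.pi_pos; positivity, ?_⟩
  intro w h1 h2 h3
  have hw : ∀ m : ℕ, w ≠ -m := by
    intro m h
    rw [h] at h3
    simp at h3
    linarith
  have e := digamma_apply_add_one w hw
  rw [digamma_def] at e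
  have h4 := key (w + 1) (by simp; linarith) (by
    have := le_abs_self b
    simp; linarith) (by simpa using h3)
  rw [e] at h4
  have h5 : (w + 1).im = w.im := by simp
  rw [h5] at h4
  have h6 : ‖w⁻¹‖ ≤ 1 := by
    rw [norm_inv]
    exact inv_le_one_of_one_le₀ (h3.trans (abs_im_le_norm w))
  have h7 : logDeriv Gamma w - Real.log |w.im| =
      (logDeriv Gamma w + w⁻¹ - Real.log |w.im|) - w⁻¹ := by ring
  rw [h7]
  exact (norm_sub_le _ _).trans (add_le_add h4 h6)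

/-! ### the asymmetric functional equation -/

/-- the factor of the asymmetric functional equation -/
noncomputable def LX (w : ℂ) (κ c : ℝ) (z : ℂ) : ℂ :=
  (κ : ℂ) ^ (1 - 2 * z) * w * Gamma (1 + c - z) / Gamma (z + c)

theorem conj_real_cpow {κ : ℝ} (hκ : 0 < κ) (z : ℂ) :
    (starRingEnd ℂ) ((κ : ℂ) ^ z) = (κ : ℂ) ^ ((starRingEnd ℂ) z) := by
  have hκc : (κ : ℂ) ≠ 0 := ofReal_ne_zero.mpr hκ.ne'
  rw [cpow_def_of_ne_zero hκc, cpow_def_of_ne_zero hκc, ← Complex.exp_conj, map_mul,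
    ← Complex.ofReal_log hκ.le, Complex.conj_ofReal]

theorem fe_asym {k : ℤ} {N Q : ℝ} (hN : 1 ≤ N) (hQ : 1 ≤ Q) {F : ℂ → ℂ} (hF : FE2 k N Q F) :
    ∃ w : ℂ, ‖w‖ = 1 ∧ ∀ z : ℂ, z.im ≠ 0 →
      F z = LX w (Real.sqrt N * Q / (2 * Real.pi)) (((k : ℝ) - 1) / 2) z * refl F z := by
  obtain ⟨w, hw, h⟩ := hF.fe
  refine ⟨w, hw, fun z hz => ?_⟩
  have hκ : 0 < Real.sqrt N * Q / (2 * Real.pi) := by
    have := Real.pi_pos
    have : 0 < Real.sqrt N := Real.sqrt_pos.mpr (by linarith)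
    positivity
  have h1 := h z hz
  set κ : ℝ := Real.sqrt N * Q / (2 * Real.pi) with hκd
  have hκc : (κ : ℂ) ≠ 0 := ofReal_ne_zero.mpr hκ.ne'
  have hc : ((k : ℂ) - 1) / 2 = ((((k : ℝ) - 1) / 2 : ℝ) : ℂ) := by push_cast; ring
  set c : ℝ := ((k : ℝ) - 1) / 2 with hcd
  have e1 : GG k N Q z = (κ : ℂ) ^ z * Gamma (z + c) := by
    unfold GG; rw [← hκd, hc]
  have e2 : (starRingEnd ℂ) (GG k N Q (1 - (starRingEnd ℂ) z)) =
      (κ : ℂ) ^ (1 - z) * Gamma (1 + c - z) := by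
    unfold GG
    rw [← hκd, hc, map_mul, conj_real_cpow hκ, ← Complex.Gamma_conj]
    simp only [map_sub, map_add, map_one, Complex.conj_conj, Complex.conj_ofReal]
    congr 2
    ring
  rw [map_mul, e1, e2] at h1
  have him2 : (z + c).im ≠ 0 := by simpa using hz
  have hg2 : Gamma (z + c) ≠ 0 := Gamma_ne_zero (ne_neg_nat_of_im him2)
  have hp : (κ : ℂ) ^ z ≠ 0 := by
    rw [Ne, cpow_eq_zero_iff]
    exact fun h => hκc h.1
  have h6 : (κ : ℂ) ^ (1 - 2 * z) = (κ : ℂ) ^ (1 - z) * ((κ : ℂ) ^ z)⁻¹ := by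
    rw [← cpow_neg, ← cpow_add _ _ hκc]
    congr 1
    ring
  have h7 : F z = ((κ : ℂ) ^ z * Gamma (z + c))⁻¹ * (w * ((κ : ℂ) ^ (1 - z) * Gamma (1 + c - z) *
      (starRingEnd ℂ) (F (1 - (starRingEnd ℂ) z)))) := by
    rw [← h1, ← mul_assoc, inv_mul_cancel₀ (mul_ne_zero hp hg2), one_mul]
  rw [h7, LX, h6]
  unfold H370.DL.refl
  rw [mul_inv, div_eq_mul_inv]
  ring

theorem logDeriv_LX (w : ℂ) (hw : w ≠ 0) (κ c : ℝ) (hκ : 0 < κ) {s : ℂ} (hs : s.im ≠ 0) :
    logDeriv (LX w κ c) s = -(2 * Real.log κ : ℂ) - logDeriv Gamma (1 + c - s) -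
      logDeriv Gamma (s + c) := by
  have him1 : (1 + c - s).im ≠ 0 := by simpa using hs
  have him2 : (s + c).im ≠ 0 := by simpa using hs
  have hg1 := Gamma_ne_zero (ne_neg_nat_of_im him1)
  have hg2 := Gamma_ne_zero (ne_neg_nat_of_im him2)
  have hκc : (κ : ℂ) ≠ 0 := ofReal_ne_zero.mpr hκ.ne'
  have hqne : (κ : ℂ) ^ (1 - 2 * s) ≠ 0 := by
    rw [Ne, cpow_eq_zero_iff]
    exact fun h => hκc h.1
  have d1 : HasDerivAt (fun z : ℂ => (κ : ℂ) ^ (1 - 2 * z))
      ((κ : ℂ) ^ (1 - 2 * s) * log (κ : ℂ) * (-(2 * 1))) s := by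
    have h1 : HasDerivAt (fun z : ℂ => 1 - 2 * z) (-(2 * 1)) s :=
      ((hasDerivAt_id s).const_mul 2).const_sub 1
    exact h1.const_cpow (Or.inl hκc)
  have d2 : HasDerivAt (fun z : ℂ => Gamma (1 + c - z)) (deriv Gamma (1 + c - s) * (-1)) s := by
    have h1 : HasDerivAt (fun z : ℂ => 1 + c - z) (-1) s := (hasDerivAt_id s).const_sub _
    exact HasDerivAt.comp s (differentiableAt_Gamma _ (ne_neg_nat_of_im him1)).hasDerivAt h1
  have d3 : HasDerivAt (fun z : ℂ => Gamma (z + c)) (deriv Gamma (s + c)) s := by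
    have h1 : HasDerivAt (fun z : ℂ => z + c) 1 s := (hasDerivAt_id s).add_const _
    simpa [Function.comp_def] using
      HasDerivAt.comp s (differentiableAt_Gamma _ (ne_neg_nat_of_im him2)).hasDerivAt h1
  have d4 := ((d1.mul_const w).mul d2).div d3 hg2
  have e : deriv (LX w κ c) s = _ := d4.deriv
  rw [logDeriv_apply, e, logDeriv_apply, logDeriv_apply, LX]
  have hlog : log (κ : ℂ) = (Real.log κ : ℂ) := by
    rw [Complex.ofReal_log hκ.le]
  simp only [Pi.mul_apply]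
  rw [hlog]
  generalize (κ : ℂ) ^ (1 - 2 * s) = P at *
  generalize Gamma (1 + c - s) = G1 at *
  generalize Gamma (s + c) = G2 at *
  field_simp
  ring

theorem LX_analytic (w : ℂ) (κ c : ℝ) (hκ : 0 < κ) {s : ℂ} (hs : s.im ≠ 0) :
    AnalyticAt ℂ (LX w κ c) s := by
  rw [analyticAt_iff_eventually_differentiableAt]
  filter_upwards [eventually_im_ne hs] with z hz
  have him1 : (1 + c - z).im ≠ 0 := by simpa using hz
  have him2 : (z + c).im ≠ 0 := by simpa using hz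
  have hκc : (κ : ℂ) ≠ 0 := ofReal_ne_zero.mpr hκ.ne'
  have hg2 := Gamma_ne_zero (ne_neg_nat_of_im him2)
  have a1 : DifferentiableAt ℂ (fun z : ℂ => (κ : ℂ) ^ (1 - 2 * z)) z :=
    DifferentiableAt.const_cpow (by fun_prop) (Or.inl hκc)
  have a2 : DifferentiableAt ℂ (fun z : ℂ => Gamma (1 + c - z)) z :=
    DifferentiableAt.comp z (differentiableAt_Gamma _ (ne_neg_nat_of_im him1)) (by fun_prop)
  have a3 : DifferentiableAt ℂ (fun z : ℂ => Gamma (z + c)) z :=
    DifferentiableAt.comp z (differentiableAt_Gamma _ (ne_neg_nat_of_im him2)) (by fun_prop)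
  exact ((a1.mul_const w).mul a2).div a3 hg2

theorem LX_ne_zero (w : ℂ) (hw : w ≠ 0) (κ c : ℝ) (hκ : 0 < κ) {s : ℂ} (hs : s.im ≠ 0) :
    LX w κ c s ≠ 0 := by
  have him1 : (1 + c - s).im ≠ 0 := by simpa using hs
  have him2 : (s + c).im ≠ 0 := by simpa using hs
  have hg1 := Gamma_ne_zero (ne_neg_nat_of_im him1)
  have hg2 := Gamma_ne_zero (ne_neg_nat_of_im him2)
  have hκc : (κ : ℂ) ≠ 0 := ofReal_ne_zero.mpr hκ.ne'
  have hqne : (κ : ℂ) ^ (1 - 2 * s) ≠ 0 := by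
    rw [Ne, cpow_eq_zero_iff]
    exact fun h => hκc h.1
  unfold LX
  exact div_ne_zero (mul_ne_zero (mul_ne_zero hqne hw) hg1) hg2

/-- size of the factor on the line `Re s = -1/2` -/
theorem norm_LX (w : ℂ) (hw : ‖w‖ = 1) (κ c : ℝ) (hκ : 0 < κ) (hc : 0 ≤ c) {s : ℂ}
    (hre : s.re = -1 / 2) (hs : s.im ≠ 0) :
    ‖LX w κ c s‖ ≤ κ ^ 2 * (c + 1 / 2 + |s.im|) ^ 2 := by
  have him2 : (s + c).im ≠ 0 := by simpa using hs
  have hg2 := Gamma_ne_zero (ne_neg_nat_of_im him2)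
  -- Gamma (1 + c - s) in terms of the conjugate of Gamma (s + c)
  set u : ℂ := (starRingEnd ℂ) (s + c) with hu
  have hure : u.re = c - 1 / 2 := by
    rw [hu, conj_re, add_re, hre, ofReal_re]; ring
  have huim : u.im = - s.im := by
    rw [hu, conj_im, add_im, ofReal_im, add_zero]
  have e1 : (1 + c - s : ℂ) = u + 1 + 1 := by
    apply Complex.ext
    · simp only [sub_re, add_re, one_re, ofReal_re, hre, hure]; ring
    · simp only [sub_im, add_im, one_im, ofReal_im, huim]; ring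
  have hu0 : u ≠ 0 := by
    intro h
    apply hs
    have := congrArg Complex.im h
    rw [huim] at this
    simpa using this
  have hu1 : u + 1 ≠ 0 := by
    intro h
    apply hs
    have := congrArg Complex.im h
    rw [add_im, huim] at this
    simpa using this
  have e2 : Gamma (1 + c - s) = (u + 1) * (u * Gamma u) := by
    rw [e1, Complex.Gamma_add_one _ hu1, Complex.Gamma_add_one _ hu0]
  have e3 : ‖Gamma u‖ = ‖Gamma (s + c)‖ := by
    rw [hu, Complex.Gamma_conj, RCLike.norm_conj]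
  have e4 : ‖(κ : ℂ) ^ (1 - 2 * s)‖ = κ ^ 2 := by
    rw [Complex.norm_cpow_eq_rpow_re_of_pos hκ]
    have : (1 - 2 * s).re = 2 := by
      simp only [sub_re, one_re, mul_re, re_ofNat, im_ofNat, hre]; ring
    rw [this, Real.rpow_ofNat]
  have e5 : ‖u‖ ≤ c + 1 / 2 + |s.im| := by
    refine (norm_le_abs_re_add_abs_im u).trans ?_
    rw [hure, huim, abs_neg]
    have : |c - 1 / 2| ≤ c + 1 / 2 := by rw [abs_le]; constructor <;> linarith
    linarith
  have e6 : ‖u + 1‖ ≤ c + 1 / 2 + |s.im| := by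
    refine (norm_le_abs_re_add_abs_im (u + 1)).trans ?_
    rw [add_re, add_im, hure, huim, one_re, one_im, add_zero, abs_neg]
    rw [abs_of_nonneg (by linarith : 0 ≤ c - 1 / 2 + 1)]
    linarith
  have hGn : ‖Gamma (s + c)‖ ≠ 0 := norm_ne_zero_iff.mpr hg2
  have h0 : 0 ≤ c + 1 / 2 + |s.im| := by positivity
  unfold LX
  rw [norm_div, norm_mul, norm_mul, e4, hw, e2, norm_mul, norm_mul, e3]
  calc κ ^ 2 * 1 * (‖u + 1‖ * (‖u‖ * ‖Gamma (s + c)‖)) / ‖Gamma (s + c)‖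
      = κ ^ 2 * (‖u + 1‖ * ‖u‖) := by field_simp
    _ ≤ κ ^ 2 * ((c + 1 / 2 + |s.im|) * (c + 1 / 2 + |s.im|)) := by gcongr
    _ = _ := by ring

/-! ### growth -/

theorem F_left_edge {k : ℤ} {N Q B : ℝ} (hk : 1 ≤ k) (hN : 1 ≤ N) (hQ : 1 ≤ Q) {F : ℂ → ℂ}
    (hF : FE2 k N Q F) (hB : ∀ s : ℂ, 3 / 2 ≤ s.re → ‖F s‖ ≤ B) (s : ℂ) (hs : s.re = -1 / 2) :
    ‖F s‖ ≤ B * N * Q ^ 2 * (((k : ℝ) - 1) / 2 + 1 / 2 + |s.im|) ^ 2 := by
  have hB0 : 0 ≤ B := (norm_nonneg _).trans (hB (3 / 2) (by norm_num))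
  have hk1 : (1 : ℝ) ≤ k := by exact_mod_cast hk
  set c : ℝ := ((k : ℝ) - 1) / 2 with hc
  have hc0 : 0 ≤ c := by rw [hc]; linarith
  have hsq : 0 < Real.sqrt N := Real.sqrt_pos.mpr (by linarith)
  have hpi := Real.pi_pos
  have hpi3 := Real.pi_gt_three
  have hκ : 0 < Real.sqrt N * Q / (2 * Real.pi) := by positivity
  obtain ⟨w, hw, hfe⟩ := fe_asym hN hQ hF
  rw [← hc] at hfe
  have hκ2 : (Real.sqrt N * Q / (2 * Real.pi)) ^ 2 ≤ N * Q ^ 2 := by
    rw [div_pow, mul_pow, Real.sq_sqrt (by linarith)]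
    apply div_le_self (by positivity)
    nlinarith
  -- off the real axis
  have key : ∀ z : ℂ, z.re = -1 / 2 → z.im ≠ 0 →
      ‖F z‖ ≤ B * N * Q ^ 2 * (c + 1 / 2 + |z.im|) ^ 2 := by
    intro z hz him
    rw [hfe z him, norm_mul]
    have e1 := norm_LX w hw _ c hκ hc0 hz him
    have e2 : ‖refl F z‖ ≤ B := by
      unfold H370.DL.refl
      rw [RCLike.norm_conj]
      apply hB
      rw [re_osc, hz]; norm_num
    calc ‖LX w (Real.sqrt N * Q / (2 * Real.pi)) c z‖ * ‖refl F z‖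
        ≤ ((Real.sqrt N * Q / (2 * Real.pi)) ^ 2 * (c + 1 / 2 + |z.im|) ^ 2) * B := by gcongr
      _ ≤ ((N * Q ^ 2) * (c + 1 / 2 + |z.im|) ^ 2) * B := by gcongr
      _ = _ := by ring
  -- on the real axis by continuity
  have hsv : s = ((-1 / 2 : ℝ) : ℂ) + (s.im : ℂ) * I := by
    apply Complex.ext
    · simp [hs]
    · simp
  have hcont : Continuous F := hF.diff.continuous
  have h1 : Continuous (fun t : ℝ => ‖F (((-1 / 2 : ℝ) : ℂ) + (t : ℂ) * I)‖) := by fun_prop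
  have h2 : Continuous (fun t : ℝ => B * N * Q ^ 2 * (c + 1 / 2 + |t|) ^ 2) := by fun_prop
  have h3 : ∀ t ∈ closure ({0}ᶜ : Set ℝ), ‖F (((-1 / 2 : ℝ) : ℂ) + (t : ℂ) * I)‖ ≤
      B * N * Q ^ 2 * (c + 1 / 2 + |t|) ^ 2 := by
    intro t ht
    refine closure_minimal ?_ (isClosed_le h1 h2) ht
    intro t ht
    have him : (((-1 / 2 : ℝ) : ℂ) + (t : ℂ) * I).im = t := by simp
    have hre : (((-1 / 2 : ℝ) : ℂ) + (t : ℂ) * I).re = -1 / 2 := by simp
    have := key (((-1 / 2 : ℝ) : ℂ) + (t : ℂ) * I) hre (by rw [him]; exact ht)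
    rw [him] at this
    exact this
  have h4 : closure ({0}ᶜ : Set ℝ) = univ := by
    rw [closure_compl_singleton]
  have h5 := h3 s.im (by rw [h4]; trivial)
  rwa [← hsv] at h5

/-- the auxiliary function -/
noncomputable def HH (Q c : ℝ) (F : ℂ → ℂ) (s : ℂ) : ℂ :=
  F s * (Q : ℂ) ^ (s - 3 / 2) * ((s + 3 + c) ^ 2)⁻¹

theorem sp3_ne {s : ℂ} {c : ℝ} (hc : 0 ≤ c) (hs : -1 / 2 ≤ s.re) : s + 3 + c ≠ 0 := by
  intro h
  have := congrArg Complex.re h
  simp at this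
  linarith

theorem HH_bound {k : ℤ} {N Q B : ℝ} (hk : 1 ≤ k) (hN : 1 ≤ N) (hQ : 1 ≤ Q) {F : ℂ → ℂ}
    (hF : FE2 k N Q F) (hB : ∀ s : ℂ, 3 / 2 ≤ s.re → ‖F s‖ ≤ B) (s : ℂ) (h1 : -1 / 2 ≤ s.re)
    (h2 : s.re ≤ 3 / 2) : ‖HH Q (((k : ℝ) - 1) / 2) F s‖ ≤ 2 * (B * N) := by
  have hB0 : 0 ≤ B := (norm_nonneg _).trans (hB (3 / 2) (by norm_num))
  have hBN : 0 ≤ B * N := by positivity
  have hk1 : (1 : ℝ) ≤ k := by exact_mod_cast hk
  set c : ℝ := ((k : ℝ) - 1) / 2 with hc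
  have hc0 : 0 ≤ c := by rw [hc]; linarith
  have hQ0 : (0 : ℝ) < Q := by linarith
  have hQC : (Q : ℂ) ≠ 0 := by exact_mod_cast hQ0.ne'
  have hqn : ∀ z : ℂ, ‖(Q : ℂ) ^ (z - 3 / 2)‖ = Q ^ (z.re - 3 / 2) := by
    intro z
    rw [Complex.norm_cpow_eq_rpow_re_of_pos hQ0]
    congr 1
    rw [Complex.sub_re]; norm_num
  have hs3 : ∀ z : ℂ, ‖((z + 3 + c) ^ 2)⁻¹‖ = (‖z + 3 + c‖ ^ 2)⁻¹ := by
    intro z; rw [norm_inv, norm_pow]
  have hre3 : ∀ z : ℂ, (z + 3 + c).re = z.re + 3 + c := by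
    intro z; simp
  have him3 : ∀ z : ℂ, (z + 3 + c).im = z.im := by
    intro z; simp
  refine PhragmenLindelof.vertical_strip (f := HH Q c F) (a := -1 / 2) (b := 3 / 2) ?_ ?_ ?_ ?_ h1 h2
  · -- differentiability
    have hd : DifferentiableOn ℂ (HH Q c F) {z : ℂ | -3 < z.re} := by
      intro z hz
      have hz' : -3 < z.re := hz
      have hz3 : (z + 3 + c) ^ 2 ≠ 0 := by
        apply pow_ne_zero
        intro h
        have := congrArg Complex.re h
        rw [hre3] at this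
        simp at this
        linarith
      apply DifferentiableAt.differentiableWithinAt
      unfold HH
      refine ((hF.diff z).mul ?_).mul ?_
      · exact DifferentiableAt.const_cpow (by fun_prop) (Or.inl hQC)
      · exact DifferentiableAt.inv (by fun_prop) hz3
    apply DifferentiableOn.diffContOnCl
    apply hd.mono
    refine (Complex.continuous_re.closure_preimage_subset _).trans ?_
    intro z hz
    have hz' : z.re ∈ closure (Ioo (-1 / 2 : ℝ) (3 / 2)) := hz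
    rw [closure_Ioo (by norm_num)] at hz'
    have := hz'.1
    change -3 < z.re
    linarith
  · -- growth
    obtain ⟨M, hM0, hM⟩ := inv_Gamma_le
    obtain ⟨C, hC'⟩ := hF.vert (-1 / 2) (3 / 2)
    have hsq : 0 < Real.sqrt N := Real.sqrt_pos.mpr (by linarith)
    have hpi := Real.pi_pos
    set κ : ℝ := Real.sqrt N * Q / (2 * Real.pi) with hκd
    have hκ : 0 < κ := by positivity
    have hκc : (κ : ℂ) ≠ 0 := ofReal_ne_zero.mpr hκ.ne'
    refine ⟨1, ?_, Real.pi, ?_⟩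
    · rw [show ((3 : ℝ) / 2 - -1 / 2) = 2 by norm_num]
      linarith [Real.pi_gt_three]
    refine IsBigO.of_bound (M * (κ ^ (1 / 2 : ℝ) + κ ^ (-(3 / 2) : ℝ)) * C) ?_
    rw [eventually_inf_principal]
    have hev : ∀ᶠ z : ℂ in comap (abs ∘ Complex.im) atTop, 1 ≤ |z.im| := by
      have := (eventually_ge_atTop (1 : ℝ)).comap (abs ∘ Complex.im)
      exact this
    filter_upwards [hev] with z hz1 hz2
    have hz2' : z.re ∈ Ioo (-1 / 2 : ℝ) (3 / 2) := hz2
    have hre : (z + c).re = z.re + c := by simp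
    have him : (z + c).im = z.im := by simp
    have e1 := hM (z + c) (by rw [hre]; linarith [hz2'.1]) (by rw [him]; exact hz1)
    rw [him] at e1
    have e2 := hC' z hz2'.1.le hz2'.2.le hz1
    have hz0 : z.im ≠ 0 := by
      intro h; rw [h, abs_zero] at hz1; linarith
    have hGG : GG k N Q z = (κ : ℂ) ^ z * Gamma (z + c) := by
      have hcc : ((k : ℂ) - 1) / 2 = ((((k : ℝ) - 1) / 2 : ℝ) : ℂ) := by push_cast; ring
      unfold GG; rw [hcc]
    have hg : Gamma (z + c) ≠ 0 := Gamma_ne_zero (ne_neg_nat_of_im (by rw [him]; exact hz0))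
    have hp : (κ : ℂ) ^ z ≠ 0 := by
      rw [Ne, cpow_eq_zero_iff]
      exact fun h => hκc h.1
    have e3 : ‖((κ : ℂ) ^ z)⁻¹‖ ≤ κ ^ (1 / 2 : ℝ) + κ ^ (-(3 / 2) : ℝ) := by
      rw [norm_inv, Complex.norm_cpow_eq_rpow_re_of_pos hκ, ← Real.rpow_neg hκ.le]
      rcases le_total 1 κ with h | h
      · have := Real.rpow_le_rpow_of_exponent_le h (show -z.re ≤ 1 / 2 by linarith [hz2'.1])
        have h5 : 0 ≤ κ ^ (-(3 / 2) : ℝ) := by positivity
        linarith
      · have := Real.rpow_le_rpow_of_exponent_ge hκ h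
          (show (-(3 / 2) : ℝ) ≤ -z.re by linarith [hz2'.2])
        have h5 : 0 ≤ κ ^ (1 / 2 : ℝ) := by positivity
        linarith
    have e4 : Q ^ (z.re - 3 / 2) ≤ 1 :=
      Real.rpow_le_one_of_one_le_of_nonpos hQ (by linarith [hz2'.2])
    have e5 : (‖z + 3 + c‖ ^ 2)⁻¹ ≤ 1 := by
      apply inv_le_one_of_one_le₀
      have h5 := Complex.abs_re_le_norm (z + 3 + c)
      rw [hre3, abs_of_pos (by linarith [hz2'.1])] at h5
      nlinarith [hz2'.1]
    have hC0' : 0 ≤ C := (norm_nonneg _).trans e2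
    have e7 : F z = (Gamma (z + c))⁻¹ * ((κ : ℂ) ^ z)⁻¹ * (GG k N Q z * F z) := by
      rw [hGG]
      field_simp
    unfold HH
    rw [norm_mul, norm_mul, hqn, hs3, e7, norm_mul, norm_mul, Real.norm_eq_abs,
      abs_of_pos (Real.exp_pos _)]
    have e6 : Real.exp (Real.pi * |z.im|) ≤ Real.exp (Real.pi * Real.exp (1 * |z.im|)) := by
      apply Real.exp_le_exp.mpr
      apply mul_le_mul_of_nonneg_left _ Real.pi_pos.le
      rw [one_mul]
      linarith [Real.add_one_le_exp |z.im|]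
    have hE := (Real.exp_pos (Real.pi * |z.im|)).le
    calc ‖(Gamma (z + c))⁻¹‖ * ‖((κ : ℂ) ^ z)⁻¹‖ * ‖GG k N Q z * F z‖ *
          Q ^ (z.re - 3 / 2) * (‖z + 3 + c‖ ^ 2)⁻¹
        ≤ (M * Real.exp (Real.pi * |z.im|)) * (κ ^ (1 / 2 : ℝ) + κ ^ (-(3 / 2) : ℝ)) * C * 1 * 1 := by
          gcongr
      _ = M * (κ ^ (1 / 2 : ℝ) + κ ^ (-(3 / 2) : ℝ)) * C * Real.exp (Real.pi * |z.im|) := by ring
      _ ≤ M * (κ ^ (1 / 2 : ℝ) + κ ^ (-(3 / 2) : ℝ)) * C *
          Real.exp (Real.pi * Real.exp (1 * |z.im|)) := by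
          apply mul_le_mul_of_nonneg_left e6
          positivity
  · intro z hz
    have e1 := F_left_edge hk hN hQ hF hB z hz
    rw [← hc] at e1
    unfold HH
    rw [norm_mul, norm_mul, hqn, hs3, hz]
    have e2 : Q ^ ((-1 : ℝ) / 2 - 3 / 2) = (Q ^ 2)⁻¹ := by
      rw [show ((-1 : ℝ) / 2 - 3 / 2) = -((2 : ℕ) : ℝ) by norm_num, Real.rpow_neg hQ0.le,
        Real.rpow_natCast]
    rw [e2]
    have e3 : (c + 1 / 2 + |z.im|) ^ 2 ≤ 2 * ‖z + 3 + c‖ ^ 2 := by
      rw [Complex.sq_norm, Complex.normSq_apply, hre3, him3, hz]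
      have := sq_nonneg (c + 1 / 2 - |z.im|)
      have h4 : |z.im| ^ 2 = z.im * z.im := by rw [sq_abs, sq]
      nlinarith
    have e4 : 0 < ‖z + 3 + c‖ ^ 2 := by
      have : z + 3 + c ≠ 0 := sp3_ne hc0 (by rw [hz])
      positivity
    calc ‖F z‖ * (Q ^ 2)⁻¹ * (‖z + 3 + c‖ ^ 2)⁻¹
        ≤ (B * N * Q ^ 2 * (c + 1 / 2 + |z.im|) ^ 2) * (Q ^ 2)⁻¹ * (‖z + 3 + c‖ ^ 2)⁻¹ := by gcongr
      _ = (B * N) * ((c + 1 / 2 + |z.im|) ^ 2 * (‖z + 3 + c‖ ^ 2)⁻¹) := by field_simp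
      _ ≤ (B * N) * 2 := by
          apply mul_le_mul_of_nonneg_left _ hBN
          rw [← div_eq_mul_inv, div_le_iff₀ e4]
          exact e3
      _ = 2 * (B * N) := by ring
  · intro z hz
    have e1 := hB z (by rw [hz])
    unfold HH
    rw [norm_mul, norm_mul, hqn, hs3, hz, sub_self, Real.rpow_zero, mul_one]
    have e4 : 1 ≤ ‖z + 3 + c‖ ^ 2 := by
      have h5 := Complex.abs_re_le_norm (z + 3 + c)
      rw [hre3, hz, abs_of_pos (by linarith)] at h5
      nlinarith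
    calc ‖F z‖ * (‖z + 3 + c‖ ^ 2)⁻¹ ≤ B * 1 := by
          apply mul_le_mul e1 (inv_le_one_of_one_le₀ e4) (by positivity) hB0
      _ ≤ 2 * (B * N) := by nlinarith

theorem F_growth {k : ℤ} {N Q B : ℝ} (hk : 1 ≤ k) (hN : 1 ≤ N) (hQ : 1 ≤ Q) (hB1 : 1 ≤ B)
    {F : ℂ → ℂ} (hF : FE2 k N Q F) (hB : ∀ s : ℂ, 3 / 2 ≤ s.re → ‖F s‖ ≤ B) {A : ℝ}
    (hA : 2 + 2 * (B * N) * ((((k : ℝ) - 1) / 2) + 6) ^ 2 ≤ A)
    (s : ℂ) (h1 : (1 / 16 : ℝ) ≤ s.re) (h3 : 1 ≤ s.im) :
    ‖F s‖ ≤ A * (Q * s.im) ^ A := by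
  have hk1 : (1 : ℝ) ≤ k := by exact_mod_cast hk
  have hBN : 1 ≤ B * N := by nlinarith
  set c : ℝ := ((k : ℝ) - 1) / 2 with hc
  have hc0 : 0 ≤ c := by rw [hc]; linarith
  have hQ0 : (0 : ℝ) < Q := by linarith
  have hqt : 1 ≤ Q * s.im := by nlinarith
  have hA2 : 2 ≤ A := by
    have : 0 ≤ 2 * (B * N) * (c + 6) ^ 2 := by positivity
    linarith
  have hpow : (Q * s.im) ^ 2 ≤ (Q * s.im) ^ A := by
    rw [← Real.rpow_ofNat]
    exact Real.rpow_le_rpow_of_exponent_le hqt hA2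
  have key : ‖F s‖ ≤ 2 * (B * N) * (c + 6) ^ 2 * (Q * s.im) ^ 2 := by
    rcases le_total s.re (3 / 2) with h | h
    · have e1 := HH_bound hk hN hQ hF hB s (by linarith) h
      rw [← hc] at e1
      unfold HH at e1
      rw [norm_mul, norm_mul, norm_inv, norm_pow, Complex.norm_cpow_eq_rpow_re_of_pos hQ0] at e1
      have hre : (s - 3 / 2).re = s.re - 3 / 2 := by rw [Complex.sub_re]; norm_num
      rw [hre] at e1
      have e2 : 0 < ‖s + 3 + c‖ ^ 2 := by
        have : s + 3 + c ≠ 0 := sp3_ne hc0 (by linarith)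
        positivity
      have e3 : ‖s + 3 + c‖ ^ 2 ≤ ((c + 6) * s.im) ^ 2 := by
        apply pow_le_pow_left₀ (norm_nonneg _)
        refine (norm_le_abs_re_add_abs_im _).trans ?_
        have hre' : (s + 3 + c).re = s.re + 3 + c := by simp
        have him' : (s + 3 + c).im = s.im := by simp
        rw [hre', him', abs_of_nonneg (by linarith), abs_of_nonneg (by linarith)]
        nlinarith
      have e4 : (Q ^ 2)⁻¹ ≤ Q ^ (s.re - 3 / 2) := by
        rw [← Real.rpow_natCast, ← Real.rpow_neg hQ0.le]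
        apply Real.rpow_le_rpow_of_exponent_le hQ
        push_cast
        linarith
      have e5 : ‖F s‖ * (Q ^ 2)⁻¹ * (‖s + 3 + c‖ ^ 2)⁻¹ ≤ 2 * (B * N) := by
        refine le_trans ?_ e1
        gcongr
      have e6 : ‖F s‖ ≤ 2 * (B * N) * (‖s + 3 + c‖ ^ 2) * Q ^ 2 := by
        have hq2 : (0 : ℝ) < Q ^ 2 := by positivity
        have : ‖F s‖ = (‖F s‖ * (Q ^ 2)⁻¹ * (‖s + 3 + c‖ ^ 2)⁻¹) *
            (‖s + 3 + c‖ ^ 2) * Q ^ 2 := by
          have e2' := e2.ne'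
          generalize ‖s + 3 + c‖ ^ 2 = N at e2' ⊢
          field_simp
        rw [this]
        gcongr
      calc ‖F s‖ ≤ 2 * (B * N) * (‖s + 3 + c‖ ^ 2) * Q ^ 2 := e6
        _ ≤ 2 * (B * N) * (((c + 6) * s.im) ^ 2) * Q ^ 2 := by gcongr
        _ = 2 * (B * N) * (c + 6) ^ 2 * (Q * s.im) ^ 2 := by ring
    · have e1 := hB s h
      have e2 : 1 ≤ (Q * s.im) ^ 2 := by nlinarith
      have e3 : B ≤ 2 * (B * N) * (c + 6) ^ 2 := by
        have h4 : B ≤ B * N := by nlinarith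
        have h5 : 1 ≤ (c + 6) ^ 2 := by nlinarith
        nlinarith
      have h6 : 0 ≤ 2 * (B * N) * (c + 6) ^ 2 := by positivity
      nlinarith
  calc ‖F s‖ ≤ 2 * (B * N) * (c + 6) ^ 2 * (Q * s.im) ^ 2 := key
    _ ≤ A * (Q * s.im) ^ A := by
      apply mul_le_mul (by linarith) hpow (by positivity) (by linarith)

/-! ### the main theorem -/

theorem F_left {k : ℤ} {N Q : ℝ} (hN : 1 ≤ N) (hQ : 1 ≤ Q)
    {F : ℂ → ℂ} (hF : FE2 k N Q F) {C : ℝ}
    (hC : ∀ w : ℂ, -1 / 2 ≤ w.re → w.re ≤ ((k : ℝ) - 1) / 2 + 3 / 2 → 1 ≤ |w.im| →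
      ‖logDeriv Gamma w - Real.log |w.im|‖ ≤ C) (hk : 1 ≤ k)
    (s : ℂ) (h1 : -1 / 2 ≤ s.re) (h2 : s.re ≤ 1 / 2) (h3 : 1 ≤ s.im) (h4 : F s ≠ 0) :
    ‖deriv F s / F s + ((2 * Real.log (Q * s.im) : ℝ) : ℂ) +
        (starRingEnd ℂ) (deriv F (1 - (starRingEnd ℂ) s) / F (1 - (starRingEnd ℂ) s))‖ ≤
      |2 * Real.log (Real.sqrt N / (2 * Real.pi))| + C + C := by
  have hk1 : (1 : ℝ) ≤ k := by exact_mod_cast hk
  set c : ℝ := ((k : ℝ) - 1) / 2 with hcd
  have hc0 : 0 ≤ c := by rw [hcd]; linarith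
  have hs : s.im ≠ 0 := by linarith
  have hQ0 : (0 : ℝ) < Q := by linarith
  have hpi := Real.pi_pos
  have hsq : 0 < Real.sqrt N := Real.sqrt_pos.mpr (by linarith)
  have hκ : 0 < Real.sqrt N * Q / (2 * Real.pi) := by positivity
  obtain ⟨w, hw, hfe⟩ := fe_asym hN hQ hF
  rw [← hcd] at hfe
  have hw0 : w ≠ 0 := by
    intro h
    rw [h, norm_zero] at hw
    exact zero_ne_one hw
  set κ : ℝ := Real.sqrt N * Q / (2 * Real.pi) with hκd
  have hd : Differentiable ℂ F := hF.diff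
  have ha : AnalyticAt ℂ F (1 - (starRingEnd ℂ) s) :=
    (hd.differentiableOn).analyticAt Filter.univ_mem
  have e1 : F =ᶠ[𝓝 s] fun z => LX w κ c z * refl F z := by
    filter_upwards [eventually_im_ne hs] with z hz
    exact hfe z hz
  have hr : refl F s ≠ 0 := by
    intro h
    apply h4
    rw [hfe s hs, h, mul_zero]
  have e2 : logDeriv F s = logDeriv (LX w κ c) s + logDeriv (refl F) s := by
    rw [(logDeriv_congr_nhds e1).eq_of_nhds]
    exact logDeriv_mul s (LX_ne_zero w hw0 κ c hκ hs) hr (LX_analytic w κ c hκ hs).differentiableAt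
      (analyticAt_refl ha).differentiableAt
  rw [logDeriv_refl ha.differentiableAt, logDeriv_LX w hw0 κ c hκ hs] at e2
  change ‖logDeriv F s + ((2 * Real.log (Q * s.im) : ℝ) : ℂ) +
    (starRingEnd ℂ) (logDeriv F (1 - (starRingEnd ℂ) s))‖ ≤ _
  rw [e2]
  have i1 : |(1 + c - s).im| = s.im := by
    simp [abs_of_nonneg (by linarith : 0 ≤ s.im)]
  have i2 : |(s + c).im| = s.im := by
    simp [abs_of_nonneg (by linarith : 0 ≤ s.im)]
  have b1 := hC (1 + c - s) (by simp; linarith) (by simp; linarith) (by rw [i1]; exact h3)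
  have b2 := hC (s + c) (by simp; linarith) (by simp; linarith) (by rw [i2]; exact h3)
  rw [i1] at b1
  rw [i2] at b2
  have hlogκ : Real.log κ = Real.log (Real.sqrt N / (2 * Real.pi)) + Real.log Q := by
    rw [← Real.log_mul (by positivity) hQ0.ne', hκd]
    congr 1
    ring
  have hlogq : Real.log (Q * s.im) = Real.log Q + Real.log s.im :=
    Real.log_mul hQ0.ne' hs
  have e3 : -(2 * Real.log κ : ℂ) - logDeriv Gamma (1 + c - s) - logDeriv Gamma (s + c) +
      -(starRingEnd ℂ) (logDeriv F (1 - (starRingEnd ℂ) s)) +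
        ((2 * Real.log (Q * s.im) : ℝ) : ℂ) +
      (starRingEnd ℂ) (logDeriv F (1 - (starRingEnd ℂ) s)) =
      -((2 * Real.log (Real.sqrt N / (2 * Real.pi)) : ℝ) : ℂ) -
        (logDeriv Gamma (1 + c - s) - Real.log s.im) -
      (logDeriv Gamma (s + c) - Real.log s.im) := by
    rw [hlogq, hlogκ]
    push_cast
    ring
  rw [e3]
  refine (norm_sub_le _ _).trans ?_
  have n1 := norm_sub_le (-((2 * Real.log (Real.sqrt N / (2 * Real.pi)) : ℝ) : ℂ))
    (logDeriv Gamma (1 + c - s) - Real.log s.im)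
  rw [norm_neg, Complex.norm_real, Real.norm_eq_abs] at n1
  linarith

theorem t_fe : StFE := by
  intro k hk N hN B hB1
  have hk1 : (1 : ℝ) ≤ k := by exact_mod_cast hk
  obtain ⟨C, hC0, hC⟩ := digamma_strip (((k : ℝ) - 1) / 2 + 3 / 2)
  refine ⟨(2 + 2 * (B * N) * ((((k : ℝ) - 1) / 2) + 6) ^ 2) +
    (|2 * Real.log (Real.sqrt N / (2 * Real.pi))| + C + C), ?_, ?_⟩
  · have h1 : 0 ≤ 2 * (B * N) * ((((k : ℝ) - 1) / 2) + 6) ^ 2 := by positivity
    have h2 := abs_nonneg (2 * Real.log (Real.sqrt N / (2 * Real.pi)))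
    linarith
  intro Q hQ F hF hB hnz
  have hsq : 0 < Real.sqrt N := Real.sqrt_pos.mpr (by linarith)
  have hpi := Real.pi_pos
  have hκ : 0 < Real.sqrt N * Q / (2 * Real.pi) := by positivity
  obtain ⟨w, hw, hfe⟩ := fe_asym hN hQ hF
  have hw0 : w ≠ 0 := by
    intro h
    rw [h, norm_zero] at hw
    exact zero_ne_one hw
  have h2 := abs_nonneg (2 * Real.log (Real.sqrt N / (2 * Real.pi)))
  refine ⟨?_, ?_, ?_, ?_⟩
  · intro s h1 _ h3
    exact F_growth hk hN hQ hB1 hF hB (by linarith) s h1 h3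
  · intro s h1 h3
    have hs : s.im ≠ 0 := by linarith
    rw [hfe s hs]
    refine mul_ne_zero (LX_ne_zero w hw0 _ _ hκ hs) ?_
    unfold H370.DL.refl
    rw [map_ne_zero]
    apply hnz
    · rw [re_osc]; linarith
    · rw [im_osc]; exact h3.trans (le_abs_self _)
  · intro s _ _ h3
    have hs : s.im ≠ 0 := by linarith
    have ha : AnalyticAt ℂ F (1 - (starRingEnd ℂ) s) := hF.diff.analyticAt _
    have h1 : F =ᶠ[𝓝 s] (LX w (Real.sqrt N * Q / (2 * Real.pi)) (((k : ℝ) - 1) / 2)) * refl F := by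
      filter_upwards [eventually_im_ne hs] with z hz
      exact hfe z hz
    have hX := LX_analytic w _ (((k : ℝ) - 1) / 2) hκ hs
    rw [analyticOrderAt_congr h1, analyticOrderAt_mul hX (analyticAt_refl ha),
      hX.analyticOrderAt_eq_zero.mpr (LX_ne_zero w hw0 _ _ hκ hs), zero_add, order_refl ha]
  · intro s h1 h2' h3 h4
    have h5 := F_left hN hQ hF hC hk s h1 h2' h3 h4
    have h6 : 0 ≤ 2 + 2 * (B * N) * ((((k : ℝ) - 1) / 2) + 6) ^ 2 := by positivity
    linarith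

end Pool.Agent.W820.TW
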